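import Pool.Agent.Run7.h523.KF.Iface2

/-!
# Project KF: piece APX
-/

set_option autoImplicit false

namespace Run7.h590.KF.AP

open MeasureTheory Set Filter Topology Run7.h523.KF
open scoped ENNReal

theorem KK_closed {P : Type} (R : P × Bool → P × Bool → Prop) : IsClosed (KK R) := by
  have hsv : ∀ a : P × Bool, Continuous fun y : P → ℝ => sv y a := by
    intro a
    unfold sv
    split_ifs
    · exact continuous_apply a.1
    · exact (continuous_apply a.1).neg
  have h1 : KK R = (⋂ v, {y : P → ℝ | -1 ≤ y v} ∩ {y : P → ℝ | y v ≤ 1}) ∩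
      ⋂ a, ⋂ b, ⋂ _ : R a b, {y : P → ℝ | sv y a ≤ sv y b} := by
    ext y
    simp only [KK, mem_setOf_eq, mem_inter_iff, mem_iInter]
  rw [h1]
  refine IsClosed.inter (isClosed_iInter fun v => ?_) (isClosed_iInter fun a =>
    isClosed_iInter fun b => isClosed_iInter fun _ => isClosed_le (hsv a) (hsv b))
  exact (isClosed_le continuous_const (continuous_apply v)).inter
    (isClosed_le (continuous_apply v) continuous_const)

theorem KK_sub {P : Type} (R : P × Bool → P × Bool → Prop) :
    KK R ⊆ Icc (fun _ : P => (-1 : ℝ)) (fun _ => 1) := by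
  intro y hy
  exact ⟨fun v => (hy.1 v).1, fun v => (hy.1 v).2⟩

theorem KK_compact {P : Type} (R : P × Bool → P × Bool → Prop) : IsCompact (KK R) :=
  isCompact_Icc.of_isClosed_subset (KK_closed R) (KK_sub R)

/-- projection to `[-1, 1]` -/
noncomputable def cl (s : ℝ) : ℝ := max (-1) (min 1 s)

theorem cl_cont : Continuous cl := continuous_const.max (continuous_const.min continuous_id)

theorem cl_abs (s : ℝ) : |cl s| ≤ 1 := by
  rw [abs_le]
  exact ⟨le_max_left _ _, max_le (by norm_num) (min_le_left _ _)⟩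

theorem cl_eq {s : ℝ} (h1 : -1 ≤ s) (h2 : s ≤ 1) : cl s = s := by
  unfold cl
  rw [min_eq_right h2, max_eq_right h1]

theorem mem_of {r s : ℝ} (hr : 0 < r) (hr1 : r < 1) (hs : |s| ≤ 1) : r * s ∈ Ioo (-1 : ℝ) 1 := by
  have h1 : |r * s| < 1 := by
    rw [abs_mul, abs_of_pos hr]
    nlinarith [abs_nonneg s]
  exact abs_lt.1 h1

/-- the derivative of the approximation -/
noncomputable def gr (T' : ℝ → ℝ) (r s : ℝ) : ℝ := r * T' (r * cl s)

/-- the approximation -/
noncomputable def Tr (T T' : ℝ → ℝ) (r y : ℝ) : ℝ := T 0 + ∫ s in (0 : ℝ)..y, gr T' r s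

section

variable {T T' : ℝ → ℝ} {r : ℝ}

theorem gr_cont (hc : ContinuousOn T' (Ioo (-1) 1)) (hr : 0 < r) (hr1 : r < 1) :
    Continuous (gr T' r) := by
  refine continuous_const.mul (hc.comp_continuous (continuous_const.mul cl_cont) fun s => ?_)
  exact mem_of hr hr1 (cl_abs s)

theorem Tr_deriv (hc : ContinuousOn T' (Ioo (-1) 1)) (hr : 0 < r) (hr1 : r < 1) (y : ℝ) :
    HasDerivAt (Tr T T' r) (gr T' r y) y :=
  (((gr_cont hc hr hr1).integral_hasStrictDerivAt 0 y).hasDerivAt).const_add (T 0)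

theorem Tr_eq (hT : ∀ y ∈ Ioo (-1 : ℝ) 1, HasDerivAt T (T' y) y)
    (hc : ContinuousOn T' (Ioo (-1) 1)) (hr : 0 < r) (hr1 : r < 1) {y : ℝ} (h1 : -1 ≤ y)
    (h2 : y ≤ 1) : Tr T T' r y = T (r * y) := by
  have h := intervalIntegral.integral_eq_sub_of_hasDerivAt (f := fun s => T (r * s))
    (f' := gr T' r) (a := 0) (b := y) (fun s hs => by
      have hs1 : -1 ≤ s ∧ s ≤ 1 := by
        rcases le_total 0 y with h0 | h0
        · rw [uIcc_of_le h0] at hs
          exact ⟨by linarith [hs.1], by linarith [hs.2]⟩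
        · rw [uIcc_of_ge h0] at hs
          exact ⟨by linarith [hs.1], by linarith [hs.2]⟩
      have h3 := hT (r * s) (mem_of hr hr1 (abs_le.2 hs1))
      have h4 : HasDerivAt (fun s : ℝ => r * s) (r * 1) s := (hasDerivAt_id s).const_mul r
      have h5 := h3.comp s h4
      unfold gr
      rw [cl_eq hs1.1 hs1.2]
      have h6 : HasDerivAt (fun s => T (r * s)) (T' (r * s) * (r * 1)) s := h5
      rw [show r * T' (r * s) = T' (r * s) * (r * 1) by ring]
      exact h6) ((gr_cont hc hr hr1).intervalIntegrable _ _)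
  unfold Tr
  rw [h, mul_zero]
  show T 0 + (T (r * y) - T 0) = T (r * y)
  ring

theorem Tr_contDiff (hc : ContinuousOn T' (Ioo (-1) 1)) (hr : 0 < r) (hr1 : r < 1) :
    ContDiff ℝ 1 (Tr T T' r) := by
  rw [contDiff_one_iff_deriv]
  refine ⟨fun y => (Tr_deriv hc hr hr1 y).differentiableAt, ?_⟩
  have : deriv (Tr T T' r) = gr T' r := funext fun y => (Tr_deriv hc hr hr1 y).deriv
  rw [this]
  exact gr_cont hc hr hr1

end

theorem t_APX : S_APX := by
  intro P _ _ R T T' B C f hV hM hT hc hpos hB hf hfC hfC'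
  set K := KK R with hK
  have hKc : IsCompact K := KK_compact R
  have hKm : MeasurableSet K := (KK_closed R).measurableSet
  have hKfin : volume K < ⊤ := hKc.measure_lt_top
  -- the approximating functions
  set F : ℝ → (P → ℝ) → ℝ := fun r y => f (fun v => Tr T T' r (y v)) with hF
  set G : ℝ → P → (P → ℝ) → ℝ := fun r v y =>
    fderiv ℝ f (fun w => Tr T T' r (y w)) (Pi.single v 1) with hG
  have hfd : Continuous fun x => fderiv ℝ f x := hf.continuous_fderiv (by norm_num)
  have hTrc : ∀ r, 0 < r → r < 1 → Continuous fun (y : P → ℝ) (v : P) => Tr T T' r (y v) := by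
    intro r h0 h1
    exact continuous_pi fun v => (Tr_contDiff hc h0 h1).continuous.comp (continuous_apply v)
  have hFc : ∀ r, 0 < r → r < 1 → ContDiff ℝ 1 (F r) := by
    intro r h0 h1
    exact hf.comp (contDiff_pi.2 fun v => (Tr_contDiff hc h0 h1).comp (contDiff_apply ℝ ℝ v))
  have hGc : ∀ r, 0 < r → r < 1 → ∀ v, Continuous (G r v) := by
    intro r h0 h1 v
    exact (hfd.comp (hTrc r h0 h1)).clm_apply continuous_const
  have hFd : ∀ r, 0 < r → r < 1 → ∀ (y : P → ℝ) (v : P),
      fderiv ℝ (F r) y (Pi.single v 1) = gr T' r (y v) * G r v y := by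
    intro r h0 h1 y v
    have h2 : HasFDerivAt (fun (y : P → ℝ) (w : P) => Tr T T' r (y w))
        (ContinuousLinearMap.pi fun w : P => (gr T' r (y w)) •
          (ContinuousLinearMap.proj w : (P → ℝ) →L[ℝ] ℝ)) y := by
      rw [hasFDerivAt_pi]
      intro w
      have hw := (Tr_deriv (T := T) hc h0 h1 (y w))
      exact HasDerivAt.comp_hasFDerivAt (h₂ := Tr T T' r) (f := fun y : P → ℝ => y w) y hw
        (hasFDerivAt_apply w y)
    have h3 : HasFDerivAt (F r) _ y :=
      (hf.differentiable (by norm_num) (fun w => Tr T T' r (y w))).hasFDerivAt.comp y h2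
    rw [h3.fderiv, ContinuousLinearMap.comp_apply]
    have h4 : (ContinuousLinearMap.pi fun w : P => (gr T' r (y w)) •
          (ContinuousLinearMap.proj w : (P → ℝ) →L[ℝ] ℝ)) (Pi.single v 1) =
        gr T' r (y v) • (Pi.single v 1 : P → ℝ) := by
      funext w
      show gr T' r (y w) * (Pi.single v (1 : ℝ) : P → ℝ) w =
        gr T' r (y v) * (Pi.single v (1 : ℝ) : P → ℝ) w
      by_cases hw : w = v
      · rw [hw]
      · rw [Pi.single_eq_of_ne hw, mul_zero, mul_zero]
    rw [h4, map_smul]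
    rfl
  -- the inequality for `r < 1`
  have hineq : ∀ r, 0 < r → r < 1 →
      (∫ y in K, F r y ^ 2) - (∫ y in K, F r y) ^ 2 / (volume K).toReal ≤
        B ^ 2 * ∑ v : P, ∫ y in K, (G r v y) ^ 2 := by
    intro r h0 h1
    refine (hM (F r) (hFc r h0 h1)).trans ?_
    rw [div_one, one_mul, Finset.mul_sum]
    refine Finset.sum_le_sum fun v _ => ?_
    rw [← integral_const_mul]
    refine setIntegral_mono_on ?_ ?_ hKm ?_
    · refine ContinuousOn.integrableOn_compact hKc (Continuous.continuousOn ?_)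
      have hW : Continuous W2 := by
        unfold W2
        exact (continuous_const.max (continuous_const.sub (continuous_id.pow 2))).pow 2
      refine (hW.comp (continuous_apply v)).mul (Continuous.pow ?_ 2)
      exact (((hFc r h0 h1).continuous_fderiv (by norm_num)).clm_apply continuous_const)
    · exact ContinuousOn.integrableOn_compact hKc
        ((continuous_const.mul ((hGc r h0 h1 v).pow 2)).continuousOn)
    · intro y hy
      have hy1 := (hy.1 v).1
      have hy2 := (hy.1 v).2
      rw [hFd r h0 h1, mul_pow, ← mul_assoc]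
      refine mul_le_mul_of_nonneg_right ?_ (sq_nonneg _)
      have hmem := mem_of h0 h1 (abs_le.2 ⟨hy1, hy2⟩)
      have hb := hB _ hmem
      have hp := hpos _ hmem
      have hsq : (y v) ^ 2 ≤ 1 := by nlinarith
      unfold W2 gr
      rw [cl_eq hy1 hy2, max_eq_right (by linarith), ← mul_pow]
      have h2 : (1 - y v ^ 2) * (r * T' (r * y v)) ≤ B := by
        refine le_trans ?_ hb
        rw [← mul_assoc]
        refine mul_le_mul_of_nonneg_right ?_ hp.le
        rw [mul_pow]
        have h3 : r ^ 2 ≤ 1 := by nlinarith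
        nlinarith [mul_nonneg (sub_nonneg.2 hsq) (sub_nonneg.2 h1.le), mul_nonneg (sq_nonneg (y v)) (sub_nonneg.2 h3)]
      have h3 : 0 ≤ (1 - y v ^ 2) * (r * T' (r * y v)) := by
        have : 0 ≤ 1 - y v ^ 2 := by linarith
        positivity
      exact pow_le_pow_left₀ h3 h2 2
  -- the limit
  set rk : ℕ → ℝ := fun k => 1 - 1 / ((k : ℝ) + 2) with hrk
  have hrk0 : ∀ k, 0 < rk k := by
    intro k
    have : (1 : ℝ) / ((k : ℝ) + 2) < 1 := by
      rw [div_lt_one (by positivity)]
      have : (0 : ℝ) ≤ k := Nat.cast_nonneg k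
      linarith
    simp only [hrk]
    linarith
  have hrk1 : ∀ k, rk k < 1 := by
    intro k
    have : (0 : ℝ) < 1 / ((k : ℝ) + 2) := by positivity
    simp only [hrk]
    linarith
  have hrkt : Tendsto rk atTop (𝓝 1) := by
    have h1 : Tendsto (fun k : ℕ => 1 / ((k : ℝ) + 2)) atTop (𝓝 0) := by
      have h2 : Tendsto (fun k : ℕ => ((k : ℝ) + 2)) atTop atTop :=
        tendsto_atTop_add_const_right _ _ tendsto_natCast_atTop_atTop
      simp only [one_div]
      exact h2.inv_tendsto_atTop
    have h3 := (tendsto_const_nhds (x := (1 : ℝ))).sub h1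
    rw [sub_zero] at h3
    exact h3
  have hae : ∀ᵐ y ∂(volume.restrict K), y ∈ K ∧ ∀ v, y v ∈ Ioo (-1 : ℝ) 1 := by
    rw [ae_restrict_iff' hKm]
    have h1 : (pi univ fun _ : P => Ioo (-1 : ℝ) 1) =ᵐ[volume]
        Icc (fun _ : P => (-1 : ℝ)) (fun _ => 1) := Measure.univ_pi_Ioo_ae_eq_Icc
    filter_upwards [h1.mem_iff] with y hy hyK
    exact ⟨hyK, fun v => (hy.2 (KK_sub R hyK)) v (mem_univ v)⟩
  have hTlim : ∀ y : P → ℝ, y ∈ K → (∀ v, y v ∈ Ioo (-1 : ℝ) 1) →
      Tendsto (fun k => (fun v => Tr T T' (rk k) (y v))) atTop (𝓝 fun v => T (y v)) := by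
    intro y _ hy
    rw [tendsto_pi_nhds]
    intro v
    have h1 : (fun k => Tr T T' (rk k) (y v)) = fun k => T (rk k * y v) := by
      funext k
      exact Tr_eq hT hc (hrk0 k) (hrk1 k) (hy v).1.le (hy v).2.le
    rw [h1]
    have h2 : Tendsto (fun k => rk k * y v) atTop (𝓝 (y v)) := by
      have := hrkt.mul_const (y v)
      rwa [one_mul] at this
    exact ((hT _ (hy v)).continuousAt.tendsto).comp h2
  have hC0 : 0 ≤ C := (abs_nonneg _).trans (hfC 0)
  have hconst : Integrable (fun _ : P → ℝ => C ^ 2) (volume.restrict K) :=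
    integrableOn_const hKfin.ne
  have hconst' : Integrable (fun _ : P → ℝ => C) (volume.restrict K) :=
    integrableOn_const hKfin.ne
  have l1 : Tendsto (fun k => ∫ y in K, F (rk k) y ^ 2) atTop
      (𝓝 (∫ y in K, f (fun v => T (y v)) ^ 2)) := by
    refine tendsto_integral_of_dominated_convergence (fun _ => C ^ 2) (fun k => ?_) hconst
      (fun k => ?_) ?_
    · exact ((hFc _ (hrk0 k) (hrk1 k)).continuous.pow 2).aestronglyMeasurable
    · refine Filter.Eventually.of_forall fun y => ?_
      rw [norm_pow, Real.norm_eq_abs]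
      exact pow_le_pow_left₀ (abs_nonneg _) (hfC _) 2
    · filter_upwards [hae] with y hy
      exact ((hf.continuous.tendsto _).comp (hTlim y hy.1 hy.2)).pow 2
  have l2 : Tendsto (fun k => ∫ y in K, F (rk k) y) atTop
      (𝓝 (∫ y in K, f (fun v => T (y v)))) := by
    refine tendsto_integral_of_dominated_convergence (fun _ => C) (fun k => ?_) hconst'
      (fun k => ?_) ?_
    · exact (hFc _ (hrk0 k) (hrk1 k)).continuous.aestronglyMeasurable
    · exact Filter.Eventually.of_forall fun y => hfC _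
    · filter_upwards [hae] with y hy
      exact (hf.continuous.tendsto _).comp (hTlim y hy.1 hy.2)
  have l3 : ∀ v : P, Tendsto (fun k => ∫ y in K, G (rk k) v y ^ 2) atTop
      (𝓝 (∫ y in K, (fderiv ℝ f (fun v => T (y v)) (Pi.single v 1)) ^ 2)) := by
    intro v
    refine tendsto_integral_of_dominated_convergence (fun _ => C ^ 2) (fun k => ?_) hconst
      (fun k => ?_) ?_
    · exact ((hGc _ (hrk0 k) (hrk1 k) v).pow 2).aestronglyMeasurable
    · refine Filter.Eventually.of_forall fun y => ?_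
      rw [norm_pow, Real.norm_eq_abs]
      exact pow_le_pow_left₀ (abs_nonneg _) (hfC' _ v) 2
    · filter_upwards [hae] with y hy
      have h1 : Continuous fun x => fderiv ℝ f x (Pi.single v 1) :=
        hfd.clm_apply continuous_const
      exact ((h1.tendsto _).comp (hTlim y hy.1 hy.2)).pow 2
  refine le_of_tendsto_of_tendsto' (l1.sub ((l2.pow 2).div_const _))
    ((tendsto_finset_sum _ fun v _ => l3 v).const_mul (B ^ 2)) fun k => ?_
  exact hineq (rk k) (hrk0 k) (hrk1 k)

end Run7.h590.KF.AP
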