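import Pool.Agent.Run7.h523.KF.Iface2

/-!
# Project KF: piece SUM2
-/

set_option autoImplicit false

namespace Run7.h590.KF

open MeasureTheory Set Filter Topology Run7.h523.KF
open scoped ENNReal

theorem LCD.integrable {ρ : ℝ → ℝ} (h : LCD ρ) : Integrable ρ := by
  refine ⟨h.meas.aestronglyMeasurable, ?_⟩
  rw [hasFiniteIntegral_iff_ofReal (Filter.Eventually.of_forall h.nonneg), h.mass]
  exact ENNReal.one_lt_top

theorem LCD.integral {ρ : ℝ → ℝ} (h : LCD ρ) : ∫ x, ρ x = 1 := by
  rw [integral_eq_lintegral_of_nonneg_ae (Filter.Eventually.of_forall h.nonneg)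
    h.meas.aestronglyMeasurable, h.mass, ENNReal.toReal_one]

theorem mom_int {ρ : ℝ → ℝ} (h : LCD ρ) (h2 : Integrable (fun x => x ^ 2 * ρ x)) (k : ℕ)
    (hk : k ≤ 2) : Integrable (fun x => x ^ k * ρ x) := by
  have h0 := LCD.integrable h
  interval_cases k
  · simpa using h0
  · refine (h0.add h2).mono' ?_ ?_
    · exact ((measurable_id.pow_const 1).mul h.meas).aestronglyMeasurable
    · refine Filter.Eventually.of_forall fun x => ?_
      have h3 := h.nonneg x
      show ‖x ^ 1 * ρ x‖ ≤ ρ x + x ^ 2 * ρ x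
      rw [pow_one, norm_mul, Real.norm_eq_abs, Real.norm_eq_abs, abs_of_nonneg h3]
      have h4 : |x| ≤ 1 + x ^ 2 := by
        rw [← sq_abs]
        nlinarith [sq_nonneg (|x| - 1), abs_nonneg x]
      nlinarith
  · exact h2

section

variable {P : Type} [Fintype P] [DecidableEq P]

theorem prod_mom_int {ρ : ℝ → ℝ} (h : LCD ρ) (h2 : Integrable (fun x => x ^ 2 * ρ x))
    (e : P → ℕ) (he : ∀ u, e u ≤ 2) :
    Integrable (fun x : P → ℝ => ∏ u, (x u ^ e u * ρ (x u))) :=
  Integrable.fintype_prod (f := fun u x => x ^ e u * ρ x) fun u => mom_int h h2 (e u) (he u)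

theorem prod_mom {ρ : ℝ → ℝ} (e : P → ℕ) :
    ∫ x : P → ℝ, ∏ u, (x u ^ e u * ρ (x u)) = ∏ u, ∫ x, x ^ e u * ρ x :=
  integral_fintype_prod_eq_prod (𝕜 := ℝ) (f := fun u x => x ^ e u * ρ x)

theorem pow_ind (x : P → ℝ) (v : P) : ∏ u, x u ^ (if u = v then 1 else 0) = x v := by
  rw [Finset.prod_eq_single v]
  · simp
  · intro b _ hb
    rw [if_neg hb, pow_zero]
  · intro h
    exact absurd (Finset.mem_univ v) h

theorem term1 {ρ : ℝ → ℝ} (x : P → ℝ) (v : P) :
    x v * ∏ u, ρ (x u) = ∏ u, (x u ^ (if u = v then 1 else 0) * ρ (x u)) := by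
  rw [Finset.prod_mul_distrib, pow_ind]

theorem term2 {ρ : ℝ → ℝ} (x : P → ℝ) (v w : P) :
    x v * x w * ∏ u, ρ (x u) =
      ∏ u, (x u ^ ((if u = v then 1 else 0) + (if u = w then 1 else 0)) * ρ (x u)) := by
  rw [Finset.prod_mul_distrib]
  congr 1
  simp only [pow_add]
  rw [Finset.prod_mul_distrib, pow_ind, pow_ind]

theorem t_SUM2 : S_SUM2 := by
  intro P _ _ ρ h h2
  have he1 : ∀ v u : P, (if u = v then 1 else 0) ≤ 2 := fun v u => by split_ifs <;> omega
  have he2 : ∀ v w u : P, (if u = v then 1 else 0) + (if u = w then 1 else 0) ≤ 2 :=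
    fun v w u => by split_ifs <;> omega
  have hm0 : ∫ x, x ^ 0 * ρ x = 1 := by
    simp only [pow_zero, one_mul]
    exact LCD.integral h
  set a := ∫ x, x * ρ x with ha
  set b := ∫ x, x ^ 2 * ρ x with hb
  have hm1 : ∫ x, x ^ 1 * ρ x = a := by
    simp only [pow_one]
    rfl
  have e1 : ∀ x : P → ℝ, (∑ v, x v) * ∏ v, ρ (x v) =
      ∑ v, ∏ u, (x u ^ (if u = v then 1 else 0) * ρ (x u)) := by
    intro x
    rw [Finset.sum_mul]
    exact Finset.sum_congr rfl fun v _ => term1 x v
  have e2 : ∀ x : P → ℝ, (∑ v, x v) ^ 2 * ∏ v, ρ (x v) =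
      ∑ v, ∑ w, ∏ u, (x u ^ ((if u = v then 1 else 0) + (if u = w then 1 else 0)) *
        ρ (x u)) := by
    intro x
    rw [sq, Finset.sum_mul_sum, Finset.sum_mul]
    refine Finset.sum_congr rfl fun v _ => ?_
    rw [Finset.sum_mul]
    exact Finset.sum_congr rfl fun w _ => term2 x v w
  have i1 : ∀ v : P, Integrable (fun x : P → ℝ =>
      ∏ u, (x u ^ (if u = v then 1 else 0) * ρ (x u))) :=
    fun v => prod_mom_int h h2 _ (he1 v)
  have i2 : ∀ v w : P, Integrable (fun x : P → ℝ =>
      ∏ u, (x u ^ ((if u = v then 1 else 0) + (if u = w then 1 else 0)) * ρ (x u))) :=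
    fun v w => prod_mom_int h h2 _ (he2 v w)
  have m1 : ∀ v : P, ∫ x : P → ℝ, ∏ u, (x u ^ (if u = v then 1 else 0) * ρ (x u)) = a := by
    intro v
    rw [prod_mom, Finset.prod_eq_single v]
    · rw [if_pos rfl, hm1]
    · intro u _ hu
      rw [if_neg hu, hm0]
    · intro hh
      exact absurd (Finset.mem_univ v) hh
  have m2 : ∀ v w : P, ∫ x : P → ℝ,
      ∏ u, (x u ^ ((if u = v then 1 else 0) + (if u = w then 1 else 0)) * ρ (x u)) =
      if v = w then b else a * a := by
    intro v w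
    rw [prod_mom]
    by_cases hvw : v = w
    · subst hvw
      rw [if_pos rfl, Finset.prod_eq_single v]
      · rw [if_pos rfl]
      · intro u _ hu
        rw [if_neg hu, Nat.add_zero, hm0]
      · intro hh
        exact absurd (Finset.mem_univ v) hh
    · rw [if_neg hvw, Finset.prod_eq_mul v w hvw]
      · rw [if_pos rfl, if_neg hvw, if_neg (Ne.symm hvw), if_pos rfl, Nat.add_zero,
          hm1]
      · intro u _ hu
        rw [if_neg hu.1, if_neg hu.2, Nat.add_zero, hm0]
      · intro hh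
        exact absurd (Finset.mem_univ v) hh
      · intro hh
        exact absurd (Finset.mem_univ w) hh
  refine ⟨?_, ?_, ?_⟩
  · simp only [e2]
    exact integrable_finset_sum _ fun v _ => integrable_finset_sum _ fun w _ => i2 v w
  · simp only [e1]
    rw [integral_finset_sum _ fun v _ => i1 v, Finset.sum_congr rfl fun v _ => m1 v,
      Finset.sum_const, Finset.card_univ, nsmul_eq_mul]
  · simp only [e2]
    rw [integral_finset_sum _ fun v _ => integrable_finset_sum _ fun w _ => i2 v w]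
    have e3 : ∀ v : P, ∫ x : P → ℝ, ∑ w,
        ∏ u, (x u ^ ((if u = v then 1 else 0) + (if u = w then 1 else 0)) * ρ (x u)) =
        (b - a * a) + Fintype.card P * (a * a) := by
      intro v
      rw [integral_finset_sum _ fun w _ => i2 v w, Finset.sum_congr rfl fun w _ => m2 v w]
      have e4 : ∀ w : P, (if v = w then b else a * a) = (if v = w then b - a * a else 0) + a * a := by
        intro w
        split_ifs <;> ring
      rw [Finset.sum_congr rfl fun w _ => e4 w, Finset.sum_add_distrib, Finset.sum_ite_eq,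
        if_pos (Finset.mem_univ v), Finset.sum_const, Finset.card_univ, nsmul_eq_mul]
    rw [Finset.sum_congr rfl fun v _ => e3 v, Finset.sum_const, Finset.card_univ, nsmul_eq_mul]
    ring

end

end Run7.h590.KF
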