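import Pool.Agent.Run7.h523.KF.Iface2

/-!
# Project KF: piece MOM (no hypotheses)
-/

set_option autoImplicit false

namespace Run7.h590.KF.MM

open MeasureTheory Set Filter Topology Run7.h523.KF
open scoped ENNReal

/-- exponential decay to the right -/
theorem right {ρ : ℝ → ℝ} (h0 : ∀ x, 0 ≤ ρ x)
    (hl : ∀ x y, ∀ t : ℝ, 0 < t → t < 1 → ρ x ^ (1 - t) * ρ y ^ t ≤ ρ ((1 - t) * x + t * y))
    (hm : ∫⁻ x, ENNReal.ofReal (ρ x) = 1) {m : ℝ} (hρ : 0 < ρ m) :
    ∃ x₁ κ : ℝ, m < x₁ ∧ 0 < κ ∧ ∀ x, x₁ ≤ x → ρ x ≤ ρ m * Real.exp (-(κ * (x - m))) := by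
  obtain ⟨x₁, hx₁, hlt⟩ : ∃ x₁, m < x₁ ∧ ρ x₁ < ρ m / 2 := by
    by_contra hcon
    push Not at hcon
    have h1 : ∫⁻ _x in Ioi m, ENNReal.ofReal (ρ m / 2) ≤ ∫⁻ x, ENNReal.ofReal (ρ x) := by
      refine le_trans (setLIntegral_mono' measurableSet_Ioi fun x hx => ?_)
        (setLIntegral_le_lintegral _ _)
      exact ENNReal.ofReal_le_ofReal (hcon x hx)
    rw [hm, setLIntegral_const, Real.volume_Ioi, ENNReal.mul_top] at h1
    · exact absurd h1 (by simp)
    · rw [Ne, ENNReal.ofReal_eq_zero]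
      linarith
  refine ⟨x₁, Real.log 2 / (x₁ - m), hx₁, div_pos (Real.log_pos (by norm_num)) (by linarith), ?_⟩
  intro x hx
  have hd : 0 < x₁ - m := by linarith
  rcases eq_or_lt_of_le hx with rfl | hx
  · rw [div_mul_cancel₀ _ hd.ne', Real.exp_neg, Real.exp_log (by norm_num)]
    linarith
  rcases eq_or_lt_of_le (h0 x) with hz | hz
  · rw [← hz]
    positivity
  have hxm : 0 < x - m := by linarith
  set t := (x₁ - m) / (x - m) with ht
  have ht0 : 0 < t := div_pos hd hxm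
  have ht1 : t < 1 := by rw [ht, div_lt_one hxm]; linarith
  have h2 := hl m x t ht0 ht1
  have h3 : (1 - t) * m + t * x = x₁ := by
    have : t * (x - m) = x₁ - m := div_mul_cancel₀ _ hxm.ne'
    linarith
  rw [h3] at h2
  have h4 : ρ m ^ (1 - t) * ρ x ^ t ≤ ρ m / 2 := h2.trans hlt.le
  have h5 : Real.log (ρ m ^ (1 - t) * ρ x ^ t) ≤ Real.log (ρ m / 2) :=
    Real.log_le_log (by positivity) h4
  rw [Real.log_mul (by positivity) (by positivity), Real.log_rpow hρ, Real.log_rpow hz,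
    Real.log_div hρ.ne' (by norm_num)] at h5
  have h6 : t * (Real.log (ρ x) - Real.log (ρ m)) ≤ -Real.log 2 := by linarith
  have h7 : Real.log (ρ x) ≤ Real.log (ρ m) - Real.log 2 / (x₁ - m) * (x - m) := by
    have h8 : Real.log 2 / (x₁ - m) * (x - m) = Real.log 2 / t := by
      rw [ht]
      field_simp
    rw [h8]
    have h9 : Real.log (ρ x) - Real.log (ρ m) ≤ -Real.log 2 / t := by
      rw [le_div_iff₀ ht0]
      linarith
    rw [neg_div] at h9
    linarith
  calc ρ x = Real.exp (Real.log (ρ x)) := (Real.exp_log hz).symm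
    _ ≤ Real.exp (Real.log (ρ m) - Real.log 2 / (x₁ - m) * (x - m)) := Real.exp_le_exp.2 h7
    _ = ρ m * Real.exp (-(Real.log 2 / (x₁ - m) * (x - m))) := by
      rw [sub_eq_add_neg, Real.exp_add, Real.exp_log hρ]

theorem exists_pos {ρ : ℝ → ℝ} (hm : ∫⁻ x, ENNReal.ofReal (ρ x) = 1) : ∃ m, 0 < ρ m := by
  by_contra hcon
  push Not at hcon
  have : ∫⁻ x, ENNReal.ofReal (ρ x) = 0 := by
    rw [lintegral_congr fun x => ENNReal.ofReal_eq_zero.2 (hcon x), lintegral_zero]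
  rw [this] at hm
  exact zero_ne_one hm

theorem poly_exp {κ : ℝ} (hκ : 0 < κ) (x : ℝ) :
    x ^ 2 * Real.exp (-(κ * |x|)) ≤ (2 / κ ^ 2 + 24 / κ ^ 4) * (1 + x ^ 2)⁻¹ := by
  have h1 : 0 ≤ κ * |x| := by positivity
  have h2 := Real.pow_div_factorial_le_exp (κ * |x|) h1 2
  have h4 := Real.pow_div_factorial_le_exp (κ * |x|) h1 4
  have f2 : ((Nat.factorial 2 : ℕ) : ℝ) = 2 := by norm_num [Nat.factorial]
  have f4 : ((Nat.factorial 4 : ℕ) : ℝ) = 24 := by norm_num [Nat.factorial]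
  rw [f2, mul_pow, sq_abs] at h2
  rw [f4, mul_pow, show |x| ^ 4 = x ^ 4 by rw [show (4 : ℕ) = 2 * 2 by norm_num, pow_mul, pow_mul, sq_abs]] at h4
  have e0 := Real.exp_pos (κ * |x|)
  rw [Real.exp_neg, ← div_eq_mul_inv, ← div_eq_mul_inv, div_le_div_iff₀ e0 (by positivity)]
  have h5 : x ^ 2 ≤ 2 / κ ^ 2 * Real.exp (κ * |x|) := by
    have : x ^ 2 = 2 / κ ^ 2 * (κ ^ 2 * x ^ 2 / 2) := by field_simp
    rw [this]
    exact mul_le_mul_of_nonneg_left h2 (by positivity)
  have h6 : x ^ 4 ≤ 24 / κ ^ 4 * Real.exp (κ * |x|) := by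
    have : x ^ 4 = 24 / κ ^ 4 * (κ ^ 4 * x ^ 4 / 24) := by field_simp
    rw [this]
    exact mul_le_mul_of_nonneg_left h4 (by positivity)
  nlinarith

theorem t_MOM : S_MOM := by
  intro ρ h
  have hint : Integrable ρ := by
    refine ⟨h.meas.aestronglyMeasurable, ?_⟩
    rw [hasFiniteIntegral_iff_ofReal (Filter.Eventually.of_forall h.nonneg), h.mass]
    exact ENNReal.one_lt_top
  obtain ⟨m, hρ⟩ := exists_pos h.mass
  obtain ⟨x₁, κ₁, hx₁, hκ₁, hr⟩ := right h.nonneg h.logc h.mass hρ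
  obtain ⟨x₀, κ₀, hx₀, hκ₀, hl⟩ := right (ρ := fun x => ρ (-x)) (m := -m) (fun x => h.nonneg _)
    (fun x y t h1 h2 => by
      have := h.logc (-x) (-y) t h1 h2
      rw [show (1 - t) * -x + t * -y = -((1 - t) * x + t * y) by ring] at this
      exact this)
    (by
      have h1 := (Measure.measurePreserving_neg (volume : Measure ℝ)).lintegral_comp
        (f := fun x => ENNReal.ofReal (ρ x)) h.meas.ennreal_ofReal
      exact h1.trans h.mass) (by simpa using hρ)
  set κ := min κ₁ κ₀ with hκ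
  have hκpos : 0 < κ := lt_min hκ₁ hκ₀
  set L := max |x₁| |x₀| with hL
  set K := ρ m * Real.exp (κ * |m|) with hK
  have hK0 : 0 ≤ K := by positivity
  have key : ∀ x, L < |x| → ρ x ≤ K * Real.exp (-(κ * |x|)) := by
    intro x hx
    rcases le_or_gt 0 x with h0 | h0
    · rw [abs_of_nonneg h0] at hx ⊢
      have h1 : x₁ ≤ x := (le_abs_self _).trans ((le_max_left _ _).trans hx.le)
      refine (hr x h1).trans ?_
      rw [hK, mul_assoc, ← Real.exp_add]
      apply mul_le_mul_of_nonneg_left _ hρ.le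
      apply Real.exp_le_exp.2
      have h2 : κ * (x - m) ≤ κ₁ * (x - m) :=
        mul_le_mul_of_nonneg_right (min_le_left _ _) (by linarith)
      have h3 : κ * m ≤ κ * |m| := mul_le_mul_of_nonneg_left (le_abs_self m) hκpos.le
      nlinarith
    · rw [abs_of_neg h0] at hx ⊢
      have h1 : x₀ ≤ -x := (le_abs_self _).trans ((le_max_right _ _).trans hx.le)
      have h4 := hl (-x) h1
      simp only [neg_neg] at h4
      refine h4.trans ?_
      rw [hK, mul_assoc, ← Real.exp_add]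
      apply mul_le_mul_of_nonneg_left _ hρ.le
      apply Real.exp_le_exp.2
      have h2 : κ * (-x - -m) ≤ κ₀ * (-x - -m) :=
        mul_le_mul_of_nonneg_right (min_le_right _ _) (by linarith)
      have h3 : κ * -m ≤ κ * |m| := mul_le_mul_of_nonneg_left (neg_le_abs m) hκpos.le
      nlinarith
  have hb1 : Integrable fun x => L ^ 2 * ρ x := hint.const_mul _
  have hb2 : Integrable fun x : ℝ => K * ((2 / κ ^ 2 + 24 / κ ^ 4) * (1 + x ^ 2)⁻¹) :=
    (integrable_inv_one_add_sq.const_mul _).const_mul _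
  refine (hb1.add hb2).mono' ?_ ?_
  · exact ((measurable_id.pow_const 2).mul h.meas).aestronglyMeasurable
  · refine Filter.Eventually.of_forall fun x => ?_
    have h1 := h.nonneg x
    show ‖x ^ 2 * ρ x‖ ≤ L ^ 2 * ρ x + K * ((2 / κ ^ 2 + 24 / κ ^ 4) * (1 + x ^ 2)⁻¹)
    rw [Real.norm_of_nonneg (by positivity)]
    rcases le_or_gt |x| L with h2 | h2
    · have h3 : x ^ 2 ≤ L ^ 2 := by
        rw [← sq_abs x]
        exact pow_le_pow_left₀ (abs_nonneg x) h2 2
      have h4 : 0 ≤ K * ((2 / κ ^ 2 + 24 / κ ^ 4) * (1 + x ^ 2)⁻¹) := by positivity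
      nlinarith
    · have h3 := key x h2
      have h4 := poly_exp hκpos x
      have h5 : x ^ 2 * ρ x ≤ x ^ 2 * (K * Real.exp (-(κ * |x|))) :=
        mul_le_mul_of_nonneg_left h3 (sq_nonneg x)
      have h6 : K * (x ^ 2 * Real.exp (-(κ * |x|))) ≤
          K * ((2 / κ ^ 2 + 24 / κ ^ 4) * (1 + x ^ 2)⁻¹) := mul_le_mul_of_nonneg_left h4 hK0
      have h7 : 0 ≤ L ^ 2 * ρ x := by positivity
      nlinarith

end Run7.h590.KF.MM
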